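import Pool.Agent.W767.HL.Main

set_option autoImplicit false

/-!
# MP_5bfbcb, Q1: a half-lacunary Fourier series which is not zero vanishes only on a null set

Let `n k` be negative integers with `liminf n (k + 1) / n k > 1` (the lower limit is taken in the
extended reals, so ratios tending to infinity are allowed), let `a : ℤ → ℂ`, and let
`g = ∑ a (n k) e (n k) + ∑_{j ≥ 0} a j e j`, both series converging in `L²(ℝ/ℤ)`
(which is the case when `a` is square summable).  If `g` is not the zero element of `L²`, then the
set of zeros of `g` has measure `0`.

Idea of the proof.  Put `G` for a truncation of the Fourier series and consider the vector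
`(s, ..., s, G)` with `L` copies of a small constant `s`.  Pointwise unitary rotations of the last
coordinate against the coordinate number `j mod L`, with coefficients a multiple of `z ^ (m j)`,
remove the negative frequencies `- m j` one after the other, starting with the largest one; the gap
condition guarantees that the coordinates keep a spectral gap.  This gives an analytic polynomial
with a large constant term `t`, `s ^ L * |a (- m j)| ≤ t ^ (L + 1)`, dominated on the circle by
`(L s ^ 2 + |g| ^ 2) ^ (1 / 2)`.  Jensen's inequality at a point which sees the zero set with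
harmonic measure close to `1` shows that the negative coefficients of `g` decay exponentially; a
second application of Jensen's inequality and the identity theorem finish the proof.
-/

open MeasureTheory Filter

namespace Pool.Agent.Results.MP_5bfbcb_an.HalfLacunaryZeroSets

/-- A half-lacunary Fourier series `g = g₁ + g₂` in `L²(ℝ/ℤ)` (negative frequencies `n k` in a
Hadamard lacunary sequence, arbitrary nonnegative frequencies) which is not identically zero
vanishes only on a set of measure zero. -/
theorem result (n : ℕ → ℤ) (hneg : ∀ k, n k < 0)
    (hlac : 1 < liminf (fun k => (((n (k + 1) : ℝ) / (n k : ℝ) : ℝ) : EReal)) atTop)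
    (a : ℤ → ℂ)
    (g₁ g₂ : Lp ℂ 2 (AddCircle.haarAddCircle : Measure (AddCircle (1 : ℝ))))
    (h₁ : HasSum (fun k : ℕ => a (n k) • fourierLp 2 (n k)) g₁)
    (h₂ : HasSum (fun j : ℕ => a (j : ℤ) • fourierLp 2 (j : ℤ)) g₂)
    (hg : g₁ + g₂ ≠ 0) :
    (AddCircle.haarAddCircle : Measure (AddCircle (1 : ℝ)))
      {θ : AddCircle (1 : ℝ) | (g₁ + g₂ : Lp ℂ 2 AddCircle.haarAddCircle) θ = 0} = 0 :=
  Pool.Agent.W767.HL.main n hneg hlac a g₁ g₂ h₁ h₂ hg

end Pool.Agent.Results.MP_5bfbcb_an.HalfLacunaryZeroSets
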